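import Pool.Agent.H453Z.Kw.Space

set_option autoImplicit false

namespace Pool.Agent.Results.MP_8e9337_gt.AConsistentlyNo

open Pool.Agent.Helper292.ForceCH H453Z.Kw

/-- (1) Some forcing notion preserves `ω₁` and forces diamond. (2) Diamond implies the negated form
of Q1: there is a Hausdorff `s`-group of countable tightness which is a `k`-space and is not
sequential. -/
theorem result :
    (∃ (P : Type) (_ : Preorder P), Nonempty P ∧ ∀ p : P,
      p ∈ OmegaOnePreserved P ∧ p ∈ DiamondHolds P) ∧
    (Diamond → ∃ (G : Type) (_ : Group G) (_ : TopologicalSpace G),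
      IsTopologicalGroup G ∧ T2Space G ∧
      (∀ (H : Type) [Group H] [TopologicalSpace H] [IsTopologicalGroup H] [T2Space H]
        (φ : G →* H), SeqContinuous φ → Continuous φ) ∧
      (∀ (A : Set G) (x : G), x ∈ closure A → ∃ B ⊆ A, B.Countable ∧ x ∈ closure B) ∧
      (∀ A : Set G, (∀ K : Set G, IsCompact K → IsClosed (A ∩ K)) → IsClosed A) ∧
      ¬ SequentialSpace G) := by
  refine ⟨?_, main⟩
  obtain ⟨P, hP, hne, h⟩ := exists_forcing
  exact ⟨P, hP, hne, fun p => ⟨(h p).1, (h p).2.1⟩⟩

end Pool.Agent.Results.MP_8e9337_gt.AConsistentlyNo
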